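import Mathlib

namespace Pool.Agent.Results.MP_55b43c_co.Disproof

variable {V : Type}

/-- A move to the closed neighbourhood. -/
def Step (G : SimpleGraph V) (a b : V) : Prop := b = a ∨ G.Adj a b

/-- The cops moved from `c` to `c'` and the robot moves from `r` to `r'`: it is captured if it
ends on a cop or traverses an edge that a cop traversed in this round. -/
def Captured {k : ℕ} (c c' : Fin k → V) (r r' : V) : Prop :=
  (∃ i, c' i = r') ∨ (r ≠ r' ∧ ∃ i, s(c i, c' i) = s(r, r'))

/-- Cops at `c`, robot at `r`, cops to move: the cops can force a capture. -/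
inductive Win (G : SimpleGraph V) (k : ℕ) : (Fin k → V) → V → Prop
  | mk (c : Fin k → V) (r : V) (c' : Fin k → V) (hc : ∀ i, Step G (c i) (c' i))
      (h : ∀ r', Step G r r' → ¬ Captured c c' r r' → Win G k c' r') : Win G k c r

/-- `k` cops win: they choose a placement; a robot placed on a cop is captured. -/
def CopsWin (G : SimpleGraph V) (k : ℕ) : Prop :=
  ∃ c : Fin k → V, ∀ r, (∀ i, c i ≠ r) → Win G k c r

/-- The cheating robot cop number. -/
noncomputable def ccr (G : SimpleGraph V) : ℕ := sInf {k | CopsWin G k}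

/-- Branch vertices `inl (side, i)` and subdivision vertices `inr (i, j)`. -/
abbrev W (m : ℕ) := (Bool × Fin m) ⊕ (Fin m × Fin m)

/-- The end on side `b` of the subdivided edge `p`. -/
def en {m : ℕ} (b : Bool) (p : Fin m × Fin m) : Fin m := if b then p.1 else p.2

def rel {m : ℕ} : W m → W m → Prop
  | Sum.inl x, Sum.inr p => x.2 = en x.1 p
  | Sum.inr p, Sum.inl x => x.2 = en x.1 p
  | _, _ => False

/-- The subdivision of `K_{m,m}`. -/
def H (m : ℕ) : SimpleGraph (W m) where
  Adj := rel
  symm := ⟨by rintro (x | x) (y | y) h <;> exact h⟩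
  loopless := ⟨by rintro (x | x) h <;> exact h⟩

def crel {m : ℕ} : Option (W m) → Option (W m) → Prop
  | some a, some b => rel a b
  | none, none => False
  | _, _ => True

/-- `H m` plus a universal vertex. -/
def G (m : ℕ) : SimpleGraph (Option (W m)) where
  Adj := crel
  symm := ⟨by
    rintro (_ | x) (_ | y) h
    · exact h
    · trivial
    · trivial
    · exact (H m).symm.symm _ _ h⟩
  loopless := ⟨by
    rintro (_ | x) h
    · exact h
    · exact (H m).loopless.irrefl _ h⟩

lemma G_conn (m : ℕ) : (G m).Connected := by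
  have : ∀ v, (G m).Reachable none v := by
    rintro (_ | v)
    · rfl
    · exact SimpleGraph.Adj.reachable (show crel none (some v) from trivial)
  exact ⟨fun a b => (this a).symm.trans (this b)⟩

lemma H_conn (m : ℕ) (hm : 0 < m) : (H m).Connected := by
  let z : Fin m := ⟨0, hm⟩
  have e1 : ∀ p : Fin m × Fin m, (H m).Reachable (Sum.inl (true, p.1)) (Sum.inr p) :=
    fun p => SimpleGraph.Adj.reachable (show p.1 = en true p from rfl)
  have e2 : ∀ p : Fin m × Fin m, (H m).Reachable (Sum.inl (false, p.2)) (Sum.inr p) :=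
    fun p => SimpleGraph.Adj.reachable (show p.2 = en false p from rfl)
  have e3 : ∀ i j : Fin m, (H m).Reachable (Sum.inl (true, i)) (Sum.inl (false, j)) :=
    fun i j => (e1 (i, j)).trans (e2 (i, j)).symm
  have : ∀ v, (H m).Reachable (Sum.inl (true, z)) v := by
    rintro (⟨b, i⟩ | p)
    · cases b
      · exact e3 z i
      · exact (e3 z z).trans (e3 i z).symm
    · exact (e3 z p.2).trans (e2 p)
  have hne : Nonempty (W m) := ⟨Sum.inl (true, z)⟩
  exact ⟨fun a b => (this a).symm.trans (this b)⟩

/-- Robot on a subdivision vertex, a cop on one end and two cops on the universal vertex. -/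
lemma win_sub {m : ℕ} (b : Bool) (p : Fin m × Fin m) :
    Win (G m) 3 ![some (Sum.inl (b, en b p)), none, none] (some (Sum.inr p)) := by
  refine Win.mk _ _ ![some (Sum.inl (b, en b p)), some (Sum.inr p),
    some (Sum.inl (!b, en (!b) p))] ?_ ?_
  · intro i
    fin_cases i
    · exact Or.inl rfl
    · exact Or.inr trivial
    · exact Or.inr trivial
  · intro r' hs hn
    exfalso
    apply hn
    rcases hs with rfl | hs
    · exact Or.inl ⟨1, rfl⟩
    · rcases r' with _ | ⟨b', i⟩ | q
      · exact Or.inr ⟨by simp, 1, Sym2.eq_swap⟩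
      · have hi : i = en b' p := hs
        subst hi
        by_cases hb : b' = b
        · subst hb
          exact Or.inl ⟨0, rfl⟩
        · have : b' = !b := by cases b <;> cases b' <;> simp_all
          subst this
          exact Or.inl ⟨2, rfl⟩
      · exact hs.elim

lemma G_win (m : ℕ) : CopsWin (G m) 3 := by
  refine ⟨fun _ => none, ?_⟩
  rintro (_ | ⟨b, i⟩ | p) hr
  · exact absurd rfl (hr 0)
  · refine Win.mk _ _ ![some (Sum.inl (b, i)), none, none] ?_ ?_
    · intro j
      fin_cases j
      · exact Or.inr trivial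
      · exact Or.inl rfl
      · exact Or.inl rfl
    · intro r' hs hn
      rcases hs with rfl | hs
      · exact absurd (Or.inl ⟨0, rfl⟩) hn
      · rcases r' with _ | x | q
        · exact absurd (Or.inl ⟨1, rfl⟩) hn
        · exact hs.elim
        · have hi : i = en b q := hs
          subst hi
          exact win_sub b q
  · refine Win.mk _ _ ![some (Sum.inl (true, p.1)), some (Sum.inr p),
      some (Sum.inl (false, p.2))] ?_ ?_
    · intro i
      fin_cases i <;> exact Or.inr trivial
    · intro r' hs hn
      exfalso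
      apply hn
      rcases hs with rfl | hs
      · exact Or.inl ⟨1, rfl⟩
      · rcases r' with _ | ⟨b', i⟩ | q
        · exact Or.inr ⟨by simp, 1, Sym2.eq_swap⟩
        · have hi : i = en b' p := hs
          subst hi
          cases b'
          · exact Or.inl ⟨2, rfl⟩
          · exact Or.inl ⟨0, rfl⟩
        · exact hs.elim

/-- The index on side `b` that a token at `v` guards. -/
def guard {m : ℕ} (b : Bool) : W m → Fin m
  | Sum.inl x => x.2
  | Sum.inr p => en b p

/-- The subdivision vertex between `(b, i)` and `(!b, j)`. -/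
def mid {m : ℕ} (b : Bool) (i j : Fin m) : Fin m × Fin m := if b then (i, j) else (j, i)

lemma en_mid1 {m : ℕ} (b : Bool) (i j : Fin m) : en b (mid b i j) = i := by cases b <;> rfl
lemma en_mid2 {m : ℕ} (b : Bool) (i j : Fin m) : en (!b) (mid b i j) = j := by cases b <;> rfl

lemma miss {k m : ℕ} (hk : k < m) (g : Fin k → Fin m) : ∃ j, ∀ i, g i ≠ j := by
  by_contra h
  push Not at h
  have := Fintype.card_le_of_surjective g h
  simp at this
  omega

/-- Safe positions of the robot. -/
def Safe {k m : ℕ} (c : Fin k → W m) : W m → Prop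
  | Sum.inl x => ∀ i, c i ≠ Sum.inl x
  | Sum.inr p => ∃ b, ∀ i, ¬ Step (H m) (c i) (Sum.inl (b, en b p))

lemma not_win {k m : ℕ} (hk : k < m) (c : Fin k → W m) (r : W m) (h : Win (H m) k c r) :
    ¬ Safe c r := by
  classical
  induction h with
  | mk c r c' hc h ih =>
    intro hs
    rcases r with ⟨b, x⟩ | p
    · obtain ⟨j, hj⟩ := miss hk (fun i =>
        if c' i = Sum.inl (b, x) then guard (!b) (c i) else guard (!b) (c' i))
      have hfree : ∀ i, ¬ Step (H m) (c' i) (Sum.inl (!b, j)) := by
        intro i hi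
        have hj' := hj i
        split_ifs at hj' with h1
        · rw [h1] at hi
          rcases hi with hi | hi
          · cases b <;> simp at hi
          · exact hi
        · apply hj'
          rcases hi with hi | hi
          · rw [← hi]; rfl
          · rcases hci : c' i with y | q
            · rw [hci] at hi; exact hi.elim
            · rw [hci] at hi; exact Eq.symm hi
      refine ih (Sum.inr (mid b x j)) (Or.inr (en_mid1 b x j).symm) ?_
        ⟨!b, by rw [en_mid2]; exact hfree⟩
      rintro (⟨i, hi⟩ | ⟨_, i, hi⟩)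
      · apply hfree i
        rw [hi]
        exact Or.inr (en_mid2 b x j).symm
      · rcases Sym2.eq_iff.1 hi with ⟨h1, _⟩ | ⟨h1, h2⟩
        · exact hs i h1
        · have hj' := hj i
          rw [if_pos h2, h1] at hj'
          exact hj' (en_mid2 b x j)
    · obtain ⟨b, hb⟩ := hs
      have hfree : ∀ i, c' i ≠ Sum.inl (b, en b p) := fun i hi => hb i (hi ▸ hc i)
      refine ih (Sum.inl (b, en b p)) (Or.inr rfl) ?_ hfree
      rintro (⟨i, hi⟩ | ⟨_, i, hi⟩)
      · exact hfree i hi
      · rcases Sym2.eq_iff.1 hi with ⟨_, h2⟩ | ⟨h1, _⟩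
        · exact hfree i h2
        · exact hb i (Or.inl h1.symm)

lemma H_lose {k m : ℕ} (hk : k < m) : ¬ CopsWin (H m) k := by
  rintro ⟨c, hc⟩
  obtain ⟨j, hj⟩ := miss hk (fun i => guard true (c i))
  have : ∀ i, c i ≠ Sum.inl (true, j) := fun i hi => hj i (by rw [hi]; rfl)
  exact not_win hk c _ (hc _ this) this

lemma H_win (m : ℕ) : CopsWin (H m) (Fintype.card (W m)) :=
  ⟨(Fintype.equivFin (W m)).symm, fun r hr =>
    absurd ((Fintype.equivFin (W m)).symm_apply_apply r) (hr _)⟩

theorem result (m : ℕ) : ∃ (V₁ V₂ : Type) (_ : Fintype V₁) (_ : Fintype V₂)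
    (G₁ : SimpleGraph V₁) (H₁ : SimpleGraph V₂) (f : V₂ → V₁),
    G₁.Connected ∧ H₁.Connected ∧ Function.Injective f ∧
    (∀ a b, H₁.Adj a b ↔ G₁.Adj (f a) (f b)) ∧
    CopsWin G₁ 3 ∧ ccr G₁ ≤ 3 ∧ m ≤ ccr H₁ := by
  refine ⟨Option (W (m + 1)), W (m + 1), inferInstance, inferInstance, G (m + 1), H (m + 1), some,
    G_conn _, H_conn _ (by omega), Option.some_injective _, fun a b => Iff.rfl, G_win _,
    Nat.sInf_le (G_win _), ?_⟩
  by_contra hlt
  have := Nat.sInf_mem (s := {k | CopsWin (H (m + 1)) k}) ⟨_, H_win _⟩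
  exact H_lose (by unfold ccr at hlt; omega) this

end Pool.Agent.Results.MP_55b43c_co.Disproof
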